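import Pool.Agent.Helper99.MKV.GoalsC

/-! # MKV packet DRG: drifts of the charges, potentials and bilinear forms -/

open Finset

namespace Pool.Agent.Helper75.MKV

open Pool.Agent.Helper99.MKV Pool.Agent.Helper99.ERW
open Pool.Agent.Helper99.EXC (La Df)

variable {E ι : Type} [Fintype ι] {U : Sys E ι}

/-- the step of a function of the new state of the current site -/
lemma stp_upd {F : MSt E → ℝ} {t : MSt E} {H : ι → ℝ} (h : ∀ i e, F (nxt U t i e) = H i) :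
    stp U F t = ∑ i, U.wt t.1 (t.2 t.1) i * H i := by
  unfold stp
  refine Finset.sum_congr rfl fun i _ => ?_
  rw [h, h, h, h]; ring

lemma sd_translate (f : Site 2 → ℝ) (l : Fin 2) (x y : Site 2) :
    secondDiff (fun x => f (x - y)) l x = secondDiff f l (x - y) := by
  unfold secondDiff
  have e1 : x + vec (l, true) - y = x - y + vec (l, true) := by abel
  have e2 : x + vec (l, false) - y = x - y + vec (l, false) := by abel
  simp only [e1, e2]

lemma La_shift (a : ℝ) (φ Ψ : Site 2 → ℝ) (z x : Site 2) :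
    La a (fun y => φ (y - z) - Ψ y) x = La a φ (x - z) - La a Ψ x := by
  have h0 := sd_translate φ 0 x z
  have h1 := sd_translate φ 1 x z
  unfold La
  rw [← h0, ← h1]
  unfold secondDiff
  ring

lemma Df_shift (φ Ψ : Site 2 → ℝ) (z x : Site 2) :
    Df (fun y => φ (y - z) - Ψ y) x = Df φ (x - z) - Df Ψ x := by
  have h0 := sd_translate φ 0 x z
  have h1 := sd_translate φ 1 x z
  unfold Df
  rw [← h0, ← h1]
  unfold secondDiff
  ring

lemma drg1 (hU : U.Ok) (t : MSt E) (g : Site 2 → E → ℝ) (D : Finset (Site 2)) (v : Site 2 → ℝ) :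
    Dr U (VV g D v) t =
      if t.1 ∈ D then v t.1 * (av U t.1 (g t.1) (t.2 t.1) - g t.1 (t.2 t.1)) else 0 := by
  have h1 : stp U (VV g D v) t = ∑ z ∈ D, v z * (g z (t.2 z) +
      if z = t.1 then av U t.1 (g z) (t.2 t.1) - g z (t.2 t.1) else 0) := by
    have e1 : VV g D v = fun s => ∑ z ∈ D, v z * g z (s.2 z) := rfl
    rw [e1, stp_sum]
    refine Finset.sum_congr rfl fun z _ => ?_
    rw [stp_smul, stp_state hU]
  unfold Dr
  rw [h1]
  unfold VV
  rw [← Finset.sum_sub_distrib]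
  have h2 : ∀ z ∈ D, v z * (g z (t.2 z) +
      (if z = t.1 then av U t.1 (g z) (t.2 t.1) - g z (t.2 t.1) else 0)) - v z * g z (t.2 z) =
      if z = t.1 then v t.1 * (av U t.1 (g t.1) (t.2 t.1) - g t.1 (t.2 t.1)) else 0 := by
    intro z _
    by_cases hz : z = t.1
    · rw [if_pos hz, if_pos hz, hz]; ring
    · rw [if_neg hz, if_neg hz]; ring
  rw [Finset.sum_congr rfl h2, Finset.sum_ite_eq']

lemma drg2 (hU : U.Ok) (t : MSt E) (a : ℝ) (φ Ψ : Site 2 → ℝ)
    (hφ : ∀ x, La a φ x = if x = 0 then 1 else 0)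
    (g : Site 2 → E → ℝ) (D : Finset (Site 2)) (v : Site 2 → ℝ) : Dr U (ZZ φ Ψ g D v) t =
      (if t.1 ∈ D then v t.1 * g t.1 (t.2 t.1) else 0) - La a Ψ t.1 * VV g D v t +
      dd U a t * (∑ z ∈ D, v z * g z (t.2 z) * (Df φ (t.1 - z) - Df Ψ t.1)) +
      if t.1 ∈ D then v t.1 * (av U t.1 (g t.1) (t.2 t.1) - g t.1 (t.2 t.1)) *
        (φ 0 - Ψ t.1 + (1 - La a Ψ t.1) + dd U a t * (Df φ 0 - Df Ψ t.1)) else 0 := by
  have h1 : stp U (ZZ φ Ψ g D v) t = ∑ z ∈ D, v z * ((g z (t.2 z) +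
      if z = t.1 then av U t.1 (g z) (t.2 t.1) - g z (t.2 t.1) else 0) *
      ((φ (t.1 - z) - Ψ t.1) + (La a φ (t.1 - z) - La a Ψ t.1) +
        dd U a t * (Df φ (t.1 - z) - Df Ψ t.1))) := by
    have e1 : ZZ φ Ψ g D v = fun s => ∑ z ∈ D, v z * (g z (s.2 z) * (φ (s.1 - z) - Ψ s.1)) := by
      funext s
      unfold ZZ
      refine Finset.sum_congr rfl fun z _ => ?_
      ring
    rw [e1, stp_sum]
    refine Finset.sum_congr rfl fun z _ => ?_
    rw [stp_smul, stp_site hU a z (g z) (fun x => φ (x - z) - Ψ x), La_shift, Df_shift]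
  unfold Dr
  rw [h1]
  have h2 : (if t.1 ∈ D then v t.1 * g t.1 (t.2 t.1) else 0) =
      ∑ z ∈ D, if z = t.1 then v t.1 * g t.1 (t.2 t.1) else 0 := by
    rw [Finset.sum_ite_eq']
  have h3 : (if t.1 ∈ D then v t.1 * (av U t.1 (g t.1) (t.2 t.1) - g t.1 (t.2 t.1)) *
        (φ 0 - Ψ t.1 + (1 - La a Ψ t.1) + dd U a t * (Df φ 0 - Df Ψ t.1)) else 0) =
      ∑ z ∈ D, if z = t.1 then v t.1 * (av U t.1 (g t.1) (t.2 t.1) - g t.1 (t.2 t.1)) *
        (φ 0 - Ψ t.1 + (1 - La a Ψ t.1) + dd U a t * (Df φ 0 - Df Ψ t.1)) else 0 := by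
    rw [Finset.sum_ite_eq']
  rw [h2, h3]
  unfold VV ZZ
  rw [Finset.mul_sum, Finset.mul_sum, ← Finset.sum_sub_distrib, ← Finset.sum_sub_distrib,
    ← Finset.sum_add_distrib, ← Finset.sum_add_distrib]
  refine Finset.sum_congr rfl fun z _ => ?_
  rw [hφ]
  by_cases hz : z = t.1
  · rw [if_pos hz, if_pos hz, if_pos hz, hz, sub_self, if_pos rfl]
    ring
  · have hz' : ¬ (t.1 - z = 0) := fun h => hz (sub_eq_zero.1 h).symm
    rw [if_neg hz, if_neg hz, if_neg hz, if_neg hz']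
    ring

lemma drg3 (hINC : INC_stmt) (hU : U.Ok) (t : MSt E) (g g' : Site 2 → E → ℝ)
    (D D' : Finset (Site 2)) (M : Site 2 → Site 2 → ℝ) :
    Dr U (BL g g' D D' M) t =
      (if t.1 ∈ D then (av U t.1 (g t.1) (t.2 t.1) - g t.1 (t.2 t.1)) *
        ∑ z ∈ D', M t.1 z * g' z (t.2 z) else 0) +
      (if t.1 ∈ D' then (av U t.1 (g' t.1) (t.2 t.1) - g' t.1 (t.2 t.1)) *
        ∑ y ∈ D, M y t.1 * g y (t.2 y) else 0) +
      (if t.1 ∈ D ∧ t.1 ∈ D' then cv U g g' t.1 (t.2 t.1) * M t.1 t.1 else 0) := by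
  have h0 : Dr U (BL g g' D D' M) t =
      stp U (fun s => BL g g' D D' M s - BL g g' D D' M t) t := by
    unfold Dr
    rw [stp_sub U (BL g g' D D' M) (fun _ => BL g g' D D' M t), stp_const hU]
  rw [h0, stp_upd (H := fun i =>
      (if t.1 ∈ D then (g t.1 (U.nx t.1 (t.2 t.1) i) - g t.1 (t.2 t.1)) *
        ∑ z ∈ D', M t.1 z * g' z (t.2 z) else 0) +
      (if t.1 ∈ D' then (g' t.1 (U.nx t.1 (t.2 t.1) i) - g' t.1 (t.2 t.1)) *
        ∑ y ∈ D, M y t.1 * g y (t.2 y) else 0) +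
      (if t.1 ∈ D ∧ t.1 ∈ D' then (g t.1 (U.nx t.1 (t.2 t.1) i) - g t.1 (t.2 t.1)) *
        (g' t.1 (U.nx t.1 (t.2 t.1) i) - g' t.1 (t.2 t.1)) * M t.1 t.1 else 0))
    (fun i e => (hINC E ι U t i e).2.2 g g' D D' M)]
  simp only [mul_add, Finset.sum_add_distrib]
  have hav : ∀ G : E → ℝ, ∑ i, U.wt t.1 (t.2 t.1) i * (G (U.nx t.1 (t.2 t.1) i) - G (t.2 t.1)) =
      av U t.1 G (t.2 t.1) - G (t.2 t.1) := by
    intro G
    simp only [mul_sub, Finset.sum_sub_distrib]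
    rw [← Finset.sum_mul, hU.wt1, one_mul]
    rfl
  congr 1
  · congr 1
    · split_ifs
      · rw [← hav (g t.1), Finset.sum_mul]
        exact Finset.sum_congr rfl fun i _ => by ring
      · simp
    · split_ifs
      · rw [← hav (g' t.1), Finset.sum_mul]
        exact Finset.sum_congr rfl fun i _ => by ring
      · simp
  · split_ifs
    · unfold cv av
      rw [Finset.sum_mul]
      exact Finset.sum_congr rfl fun i _ => by ring
    · simp

/-- Packet DRG. -/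
theorem DRG (hINC : INC_stmt) : DRG_stmt := by
  intro E ι _ U hU t
  exact ⟨fun g D v => drg1 hU t g D v, fun a φ Ψ hφ g D v => drg2 hU t a φ Ψ hφ g D v,
    fun g g' D D' M => drg3 hINC hU t g g' D D' M⟩

end Pool.Agent.Helper75.MKV
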